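import Pool.Agent.H85.STAR.Zero

/-!
# The Thue-Siegel step of H85 with any bound for the binomial coefficients
-/

set_option autoImplicit false

namespace Pool.STAR98

open Finset H85STAR

attribute [local instance] Matrix.seminormedAddCommGroup

/-- Siegel step, with any bound `C` for the coefficients -/
lemma siegel_stepB (g z M N K : ℕ) (C : ℝ) (hC1 : 1 ≤ C)
    (hCb : ∀ n ≤ N, ∀ k < M, ∀ i < K, (Nat.choose (g * n + z * k) i : ℝ) ≤ C) (hM : 1 ≤ M)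
    (hK0 : 0 < K) (hK : 4 * K ≤ 3 * (M * N)) :
    ∃ b : Fin M × Fin (N + 1) → ℤ, b ≠ 0 ∧
      (∀ i < K, ∑ w : Fin M × Fin (N + 1),
        b w * (Nat.choose (g * (w.2 : ℕ) + z * (w.1 : ℕ)) i : ℤ) = 0) ∧
      ∀ w, ((|b w| : ℤ) : ℝ) ≤ ((M * (N + 1) : ℝ) * C) ^ 3 := by
  set A : Matrix (Fin K) (Fin M × Fin (N + 1)) ℤ :=
    fun i w => (Nat.choose (g * (w.2 : ℕ) + z * (w.1 : ℕ)) (i : ℕ) : ℤ) with hA
  have hcard : Fintype.card (Fin M × Fin (N + 1)) = M * (N + 1) := by simp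
  have hcK : Fintype.card (Fin K) = K := by simp
  have hlt : K < M * (N + 1) := by nlinarith
  obtain ⟨t, ht0, hAt, htn⟩ := Int.Matrix.exists_ne_zero_int_vec_norm_le A
    (by rw [hcard, hcK]; exact hlt) (by rw [hcK]; exact hK0)
  refine ⟨t, ht0, ?_, ?_⟩
  · intro i hi
    have := congrFun hAt ⟨i, hi⟩
    simp only [Matrix.mulVec, dotProduct, hA, Pi.zero_apply] at this
    rw [← this]
    apply Finset.sum_congr rfl
    intro w _
    ring
  · intro w
    have hAn : ‖A‖ ≤ C := by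
      rw [Matrix.norm_le_iff (by linarith)]
      intro i w
      simp only [hA]
      rw [Int.norm_eq_abs]
      have hch := hCb (w.2 : ℕ) (Nat.lt_succ_iff.mp w.2.2) (w.1 : ℕ) w.1.2 (i : ℕ) i.2
      rw [abs_of_nonneg (by positivity), Int.cast_natCast]
      exact hch
    have hmax : max 1 ‖A‖ ≤ C := max_le hC1 hAn
    have hbase : (1 : ℝ) ≤ (M * (N + 1) : ℝ) * C := by
      have h1 : (1 : ℝ) ≤ (M : ℝ) := by exact_mod_cast hM
      have h2 : (1 : ℝ) ≤ (N : ℝ) + 1 := by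
        have : (0 : ℝ) ≤ N := Nat.cast_nonneg _
        linarith
      have h3 : (1 : ℝ) ≤ (M : ℝ) * (N + 1) := by nlinarith
      nlinarith
    have hle : ‖t w‖ ≤ ‖t‖ := norm_le_pi_norm t w
    have hw : ((|t w| : ℤ) : ℝ) = ‖t w‖ := by
      rw [Int.norm_eq_abs]; push_cast; rfl
    rw [hw]
    refine hle.trans (htn.trans ?_)
    have hb1 : ((Fintype.card (Fin M × Fin (N + 1)) : ℕ) : ℝ) * max 1 ‖A‖ ≤ (M * (N + 1) : ℝ) * C := by
      rw [hcard]; push_cast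
      exact mul_le_mul_of_nonneg_left hmax (by positivity)
    have hpos : (0 : ℝ) ≤ ((Fintype.card (Fin M × Fin (N + 1)) : ℕ) : ℝ) * max 1 ‖A‖ := by
      positivity
    have hexp : ((Fintype.card (Fin K) : ℕ) : ℝ) /
        (((Fintype.card (Fin M × Fin (N + 1)) : ℕ) : ℝ) - ((Fintype.card (Fin K) : ℕ) : ℝ)) ≤ 3 := by
      rw [hcard, hcK]
      have hd : (0 : ℝ) < ((M * (N + 1) : ℕ) : ℝ) - (K : ℝ) := by
        have : (K : ℝ) < ((M * (N + 1) : ℕ) : ℝ) := by exact_mod_cast hlt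
        linarith
      rw [div_le_iff₀ hd]
      have h5 : (4 * K : ℝ) ≤ 3 * (M * N) := by exact_mod_cast hK
      push_cast
      have h6 : (0 : ℝ) ≤ M := Nat.cast_nonneg _
      nlinarith
    have hexp0 : 0 ≤ ((Fintype.card (Fin K) : ℕ) : ℝ) /
        (((Fintype.card (Fin M × Fin (N + 1)) : ℕ) : ℝ) - ((Fintype.card (Fin K) : ℕ) : ℝ)) := by
      rw [hcard, hcK]
      have hd : (0 : ℝ) < ((M * (N + 1) : ℕ) : ℝ) - (K : ℝ) := by
        have : (K : ℝ) < ((M * (N + 1) : ℕ) : ℝ) := by exact_mod_cast hlt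
        linarith
      positivity
    calc (((Fintype.card (Fin M × Fin (N + 1)) : ℕ) : ℝ) * max 1 ‖A‖) ^
          (((Fintype.card (Fin K) : ℕ) : ℝ) /
        (((Fintype.card (Fin M × Fin (N + 1)) : ℕ) : ℝ) - ((Fintype.card (Fin K) : ℕ) : ℝ)))
        ≤ ((M * (N + 1) : ℝ) * C) ^ (((Fintype.card (Fin K) : ℕ) : ℝ) /
        (((Fintype.card (Fin M × Fin (N + 1)) : ℕ) : ℝ) - ((Fintype.card (Fin K) : ℕ) : ℝ))) :=
          Real.rpow_le_rpow hpos hb1 hexp0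
      _ ≤ ((M * (N + 1) : ℝ) * C) ^ (3 : ℝ) := Real.rpow_le_rpow_of_exponent_le hbase hexp
      _ = ((M * (N + 1) : ℝ) * C) ^ 3 := by
          rw [← Real.rpow_natCast]; norm_num

/-- The Thue-Siegel step with one approximation, with any bound `C` for the coefficients. -/
theorem coreB (T : Finset ℕ) (g z M N K I p q : ℕ) (a c : ℤ) (m x : ℕ → ℕ) (C : ℝ) (hC1 : 1 ≤ C)
    (hCb : ∀ n ≤ N, ∀ k < M, ∀ i < K, (Nat.choose (g * n + z * k) i : ℝ) ≤ C)
    (hT : ∀ t ∈ T, t.Prime) (hg : 0 < g) (hzg : Nat.Coprime z g) (hM : 1 ≤ M) (hMg : M ≤ g)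
    (hK : 4 * K ≤ 3 * (M * N)) (hKI : M * N + 2 * M ≤ K + I) (hIK : I ≤ K)
    (hp : 0 < p) (hq : 0 < q) (hpq : p ≠ q) (ha : a ≠ 0) (hc : c ≠ 0)
    (hall : ∀ t ∈ T, ¬ t ∣ g ∧ ¬ t ∣ q ∧ ¬ (t : ℤ) ∣ c ∧ 1 ≤ m t ∧ ((t : ℤ) ^ m t) ∣ (p : ℤ) - q ∧
     (t : ℤ) ∣ a - c ∧ ((t : ℤ) ^ x t) ∣ a ^ g * (q : ℤ) ^ z - c ^ g * (p : ℤ) ^ z ∧
     x t ≤ m t * (K - I)) :
    (∏ t ∈ T, (t : ℝ) ^ x t) ≤
      ((M * (N + 1) : ℝ) * C) ^ 4 * (max p q : ℝ) ^ N *
        (max |(a : ℝ)| |(c : ℝ)|) ^ M := by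
  have hZ : ZeroStmt := zero_est
  have hK0 : 0 < K := by
    rcases Nat.eq_zero_or_pos K with h | h
    · exfalso
      have hI : I = 0 := by omega
      have : M * N + 2 * M ≤ 0 := by omega
      omega
    · exact h
  obtain ⟨b, hb0, hsys, hbound⟩ := siegel_stepB g z M N K C hC1 hCb hM hK0 hK
  set ξ : ℕ → ℤ := fun i => ∑ w : Fin M × Fin (N + 1),
        b w * (Nat.choose (g * (w.2 : ℕ) + z * (w.1 : ℕ)) i : ℤ) *
          ((p : ℤ) ^ (w.2 : ℕ) * (q : ℤ) ^ (N - (w.2 : ℕ)) *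
            (a ^ (w.1 : ℕ) * c ^ (M - 1 - (w.1 : ℕ)))) with hξ
  have hqQ : (q : ℚ) ≠ 0 := by exact_mod_cast hq.ne'
  have hcQ : (c : ℚ) ≠ 0 := by exact_mod_cast hc
  -- some ξ i is nonzero
  obtain ⟨i, hi, hne⟩ : ∃ i < I, ξ i ≠ 0 := by
    by_contra hcon
    push Not at hcon
    have := hZ g z M N K I b ((p : ℚ) / q) ((a : ℚ) / c) hg hzg hMg hb0
      (div_ne_zero (by exact_mod_cast hp.ne') hqQ)
      (by
        intro h
        rw [div_eq_one_iff_eq hqQ] at h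
        exact hpq (by exact_mod_cast h))
      (div_ne_zero (by exact_mod_cast ha) hcQ) hsys
      (by
        intro i hi
        have h0 := hcon i hi
        have h1 : ((ξ i : ℤ) : ℚ) = 0 := by rw [h0]; norm_num
        have h2 : ((ξ i : ℤ) : ℚ) = (q : ℚ) ^ N * (c : ℚ) ^ (M - 1) *
          ∑ w : Fin M × Fin (N + 1),
            (b w : ℚ) * (Nat.choose (g * (w.2 : ℕ) + z * (w.1 : ℕ)) i : ℚ) *
              ((p : ℚ) / q) ^ (w.2 : ℕ) * ((a : ℚ) / c) ^ (w.1 : ℕ) := by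
          simp only [hξ]
          push_cast
          rw [Finset.mul_sum]
          apply Finset.sum_congr rfl
          intro w _
          have hw2 : (w.2 : ℕ) ≤ N := Nat.lt_succ_iff.mp w.2.2
          have hw1' : (w.1 : ℕ) ≤ M - 1 := by have := w.1.2; omega
          have f1 : (q : ℚ) ^ N = (q : ℚ) ^ (w.2 : ℕ) * (q : ℚ) ^ (N - (w.2 : ℕ)) := by
            rw [← pow_add]; congr 1; omega
          have f2 : (c : ℚ) ^ (M - 1) = (c : ℚ) ^ (w.1 : ℕ) * (c : ℚ) ^ (M - 1 - (w.1 : ℕ)) := by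
            rw [← pow_add]; congr 1; omega
          rw [f1, f2, div_pow, div_pow]
          have g1 : (q : ℚ) ^ (w.2 : ℕ) ≠ 0 := pow_ne_zero _ hqQ
          have g2 : (c : ℚ) ^ (w.1 : ℕ) ≠ 0 := pow_ne_zero _ hcQ
          field_simp
        rw [h2] at h1
        exact (mul_eq_zero.mp h1).resolve_left
          (mul_ne_zero (pow_ne_zero _ hqQ) (pow_ne_zero _ hcQ)))
    omega
  -- divisibility
  have hdvd : (∏ t ∈ T, t ^ x t) ∣ (ξ i).natAbs := by
    have h1 : ∀ t ∈ T, t ^ x t ∣ (ξ i).natAbs := by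
      intro t ht
      obtain ⟨k1, k2, k3, k4, k5, k6, k7, k8⟩ := hall t ht
      have hq' : ¬ (t : ℤ) ∣ (q : ℤ) := by
        intro h; exact k2 (by exact_mod_cast h)
      have := divis t g z M N K i (x t) (m t) b (p : ℤ) (q : ℤ) a c (hT t ht) k1 hq' k3 k4 k5 k6 k7
        hsys (k8.trans (Nat.mul_le_mul_left _ (by omega)))
      rw [← Int.natCast_dvd]
      push_cast
      exact this
    refine Finset.prod_dvd_of_isRelPrime ?_ h1
    intro t ht s hs hts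
    rw [Function.onFun, ← Nat.coprime_iff_isRelPrime]
    exact Nat.Coprime.pow _ _ ((Nat.coprime_primes (hT t ht) (hT s hs)).mpr hts)
  have hle : (∏ t ∈ T, t ^ x t) ≤ (ξ i).natAbs :=
    Nat.le_of_dvd (Int.natAbs_pos.mpr hne) hdvd
  have hleR : (∏ t ∈ T, (t : ℝ) ^ x t) ≤ |((ξ i : ℤ) : ℝ)| := by
    have h1 : ((∏ t ∈ T, t ^ x t : ℕ) : ℝ) ≤ (((ξ i).natAbs : ℕ) : ℝ) := by exact_mod_cast hle
    rw [Nat.cast_natAbs] at h1
    push_cast at h1
    exact h1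
  refine hleR.trans ?_
  set D : ℝ := (M * (N + 1) : ℝ) * C with hD
  have hC0 : 0 < C := by linarith
  have hD0 : 0 ≤ D := by positivity
  set P : ℝ := max (p : ℝ) (q : ℝ) with hP
  set A : ℝ := max |(a : ℝ)| |(c : ℝ)| with hA
  have hP1 : 1 ≤ P := by
    apply le_max_of_le_left; exact_mod_cast hp
  have hA1 : 1 ≤ A := by
    apply le_max_of_le_left
    have : (1 : ℤ) ≤ |a| := Int.one_le_abs ha
    exact_mod_cast this
  have hterm : ∀ w : Fin M × Fin (N + 1), |(((b w * (Nat.choose (g * (w.2 : ℕ) + z * (w.1 : ℕ)) i : ℤ) *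
          ((p : ℤ) ^ (w.2 : ℕ) * (q : ℤ) ^ (N - (w.2 : ℕ)) *
            (a ^ (w.1 : ℕ) * c ^ (M - 1 - (w.1 : ℕ))))) : ℤ) : ℝ)| ≤ D ^ 3 * C * (P ^ N * A ^ M) := by
    intro w
    have hw2 : (w.2 : ℕ) ≤ N := Nat.lt_succ_iff.mp w.2.2
    have hw1' : (w.1 : ℕ) ≤ M - 1 := by have := w.1.2; omega
    push_cast
    rw [abs_mul, abs_mul, abs_mul, abs_mul, abs_mul, abs_pow, abs_pow, abs_pow, abs_pow,
      Nat.abs_cast, Nat.abs_cast, Nat.abs_cast]
    have hb1 : |(b w : ℝ)| ≤ D ^ 3 := by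
      have := hbound w
      push_cast at this
      exact this
    have hb2 : (Nat.choose (g * (w.2 : ℕ) + z * (w.1 : ℕ)) i : ℝ) ≤ C := by
      exact hCb (w.2 : ℕ) hw2 (w.1 : ℕ) w.1.2 i (by omega)
    have hb3 : (p : ℝ) ^ (w.2 : ℕ) * (q : ℝ) ^ (N - (w.2 : ℕ)) ≤ P ^ N := by
      calc (p : ℝ) ^ (w.2 : ℕ) * (q : ℝ) ^ (N - (w.2 : ℕ))
          ≤ P ^ (w.2 : ℕ) * P ^ (N - (w.2 : ℕ)) := by
            apply mul_le_mul
            · exact pow_le_pow_left₀ (by positivity) (le_max_left _ _) _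
            · exact pow_le_pow_left₀ (by positivity) (le_max_right _ _) _
            · positivity
            · positivity
        _ = P ^ N := by rw [← pow_add]; congr 1; omega
    have hb4 : |(a : ℝ)| ^ (w.1 : ℕ) * |(c : ℝ)| ^ (M - 1 - (w.1 : ℕ)) ≤ A ^ M := by
      calc |(a : ℝ)| ^ (w.1 : ℕ) * |(c : ℝ)| ^ (M - 1 - (w.1 : ℕ))
          ≤ A ^ (w.1 : ℕ) * A ^ (M - 1 - (w.1 : ℕ)) := by
            apply mul_le_mul
            · exact pow_le_pow_left₀ (by positivity) (le_max_left _ _) _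
            · exact pow_le_pow_left₀ (by positivity) (le_max_right _ _) _
            · positivity
            · positivity
        _ = A ^ (M - 1) := by rw [← pow_add]; congr 1; omega
        _ ≤ A ^ M := pow_le_pow_right₀ hA1 (by omega)
    apply mul_le_mul
    · exact mul_le_mul hb1 hb2 (by positivity) (by positivity)
    · exact mul_le_mul hb3 hb4 (by positivity) (by positivity)
    · positivity
    · positivity
  have hsum : |((ξ i : ℤ) : ℝ)| ≤ (M * (N + 1) : ℝ) * (D ^ 3 * C * (P ^ N * A ^ M)) := by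
    simp only [hξ]
    rw [Int.cast_sum]
    refine (Finset.abs_sum_le_sum_abs _ _).trans ?_
    refine (Finset.sum_le_sum (fun w _ => hterm w)).trans ?_
    rw [Finset.sum_const, Finset.card_univ, nsmul_eq_mul]
    apply mul_le_mul_of_nonneg_right _ (by positivity)
    simp
  refine hsum.trans (le_of_eq ?_)
  rw [hD]
  ring

end Pool.STAR98
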